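import Pool.Agent.Helper14.WK.StA

/-!
# Project WK: module KP2 (transformation of the potentials)
-/

set_option autoImplicit false

open UpperHalfPlane CongruenceSubgroup
open scoped MatrixGroups

namespace Pool.Agent.Helper53.WK

open Pool.Agent.Helper14.WK
open Pool.Agent.Helper14.CV (G0 Homog EqC act)
open Pool.Agent.Helper28.WK (pr cp WT)

private theorem sq_pos' {p q : ℤ} (h : p ≠ 0 ∨ q ≠ 0) : 0 < p * p - (-q) * q := by
  rcases h with h | h
  · have : 0 < p * p := mul_self_pos.2 h
    nlinarith [mul_self_nonneg q]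
  · have : 0 < q * q := mul_self_pos.2 h
    nlinarith [mul_self_nonneg p]

private theorem pot0 {N : ℕ} {k : ℤ} {A : ℕ} {f : CuspForm (G0 N) k} {I : ℤ → ℤ → ℕ → ℂ}
    (hI : IsPotK A f I) (a b c d : ℤ) (h : 0 < a * d - b * c) (j : ℕ) (hj : j ≤ 2 * A) :
    Filter.Tendsto (fun y : ℝ => EK f j ((a * (y * Complex.I) + b) / (c * (y * Complex.I) + d)))
      Filter.atTop (nhds (I a c j)) := by
  have := hI a b c d h j hj 0
  simpa only [Complex.ofReal_zero, zero_add] using this

private theorem frac (a b c d u v : ℂ) (hv : v ≠ 0) :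
    (a * (u / v) + b) / (c * (u / v) + d) = (a * u + b * v) / (c * u + d * v) := by
  have e : ∀ a b : ℂ, a * u + b * v = (a * (u / v) + b) * v := by
    intro a b
    rw [add_mul, mul_assoc, div_mul_cancel₀ _ hv]
  rw [e a b, e c d, mul_div_mul_right _ _ hv]

private theorem deg_mp (A : ℕ) (a b c d : ℤ) (j : ℕ) (hj : j ≤ 2 * A) :
    (mp A a b c d j).natDegree ≤ 2 * A := by
  unfold mp
  refine Polynomial.natDegree_mul_le.trans ?_
  have h1 : ((Polynomial.C a * Polynomial.X + Polynomial.C b) ^ j).natDegree ≤ j := by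
    refine Polynomial.natDegree_pow_le.trans ?_
    have := Polynomial.natDegree_linear_le (a := a) (b := b)
    calc j * (Polynomial.C a * Polynomial.X + Polynomial.C b).natDegree ≤ j * 1 :=
          Nat.mul_le_mul_left j this
      _ = j := mul_one j
  have h2 : ((Polynomial.C c * Polynomial.X + Polynomial.C d) ^ (2 * A - j)).natDegree ≤
      2 * A - j := by
    refine Polynomial.natDegree_pow_le.trans ?_
    have := Polynomial.natDegree_linear_le (a := c) (b := d)
    calc (2 * A - j) * (Polynomial.C c * Polynomial.X + Polynomial.C d).natDegree ≤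
          (2 * A - j) * 1 := Nat.mul_le_mul_left _ this
      _ = 2 * A - j := mul_one _
  omega

private theorem lim_prE {N : ℕ} {k : ℤ} {A : ℕ} {f : CuspForm (G0 N) k} {I : ℤ → ℤ → ℕ → ℂ}
    (hI : IsPotK A f I) (a b c d : ℤ) (h : 0 < a * d - b * c) (P : Polynomial ℤ)
    (hP : P.natDegree ≤ 2 * A) :
    Filter.Tendsto (fun y : ℝ => prE f P ((a * (y * Complex.I) + b) / (c * (y * Complex.I) + d)))
      Filter.atTop (nhds (pr I P a c)) := by
  unfold prE pr
  simp only [Polynomial.sum_def]
  refine tendsto_finsetSum _ fun i hi => ?_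
  have hi2 : i ≤ 2 * A := (Polynomial.le_natDegree_of_mem_supp i hi).trans hP
  rw [zsmul_eq_mul]
  exact (pot0 hI a b c d h i hi2).const_mul _

theorem hKP2 (h3 : SKA3) (_h1 : SKP1) : SKP2 := by
  intro N hN A f I a b c d κ hI hdet hf j hj
  obtain ⟨C, hC⟩ := h3 N hN A f a b c d κ hdet hf j hj
  refine ⟨C, ?_⟩
  intro p q h
  have h1 := sq_pos' h
  have h2 : 0 < (a * p + b * q) * (-(c * q) + d * p) - (-(a * q) + b * p) * (c * p + d * q) := by
    have : (a * p + b * q) * (-(c * q) + d * p) - (-(a * q) + b * p) * (c * p + d * q) =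
        (a * d - b * c) * (p * p - (-q) * q) := by ring
    rw [this]
    exact mul_pos hdet h1
  have t1 := pot0 hI (a * p + b * q) (-(a * q) + b * p) (c * p + d * q) (-(c * q) + d * p) h2 j hj
  have t2 := ((lim_prE hI p (-q) q p h1 (mp A a b c d j) (deg_mp A a b c d j hj)).const_mul
    (κ * ((a * d - b * c : ℤ) : ℂ))).add_const C
  refine tendsto_nhds_unique t1 (t2.congr' ?_)
  filter_upwards [Filter.eventually_gt_atTop (0 : ℝ)] with y hy
  have hden : (q : ℂ) * (y * Complex.I) + p ≠ 0 := by
    intro h0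
    have hr := congrArg Complex.re h0
    have hi := congrArg Complex.im h0
    simp at hr hi
    rcases h with h | h
    · exact h (by exact_mod_cast hr)
    · rcases hi with hi | hi
      · exact h (by exact_mod_cast hi)
      · exact hy.ne' hi
  have him : 0 < (((p : ℂ) * (y * Complex.I) + ((-q : ℤ) : ℂ)) / ((q : ℂ) * (y * Complex.I) + p)).im := by
    rw [Complex.div_im]
    have hn : 0 < Complex.normSq ((q : ℂ) * (y * Complex.I) + p) := Complex.normSq_pos.2 hden
    have e1 : ((p : ℂ) * (y * Complex.I) + ((-q : ℤ) : ℂ)).im = p * y := by simp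
    have e2 : ((p : ℂ) * (y * Complex.I) + ((-q : ℤ) : ℂ)).re = -q := by simp
    have e3 : ((q : ℂ) * (y * Complex.I) + p).im = q * y := by simp
    have e4 : ((q : ℂ) * (y * Complex.I) + p).re = p := by simp
    rw [e1, e2, e3, e4, ← sub_div]
    refine div_pos ?_ hn
    have h1' : (0 : ℝ) < p * p - (-q) * q := by exact_mod_cast h1
    nlinarith
  have h5 := hC _ him
  rw [← h5]
  congr 1
  push_cast
  rw [frac _ _ _ _ _ _ hden]
  congr 1 <;> ring

end Pool.Agent.Helper53.WK
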